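import Pool.Agent.helper32.EB.Defs2
import Pool.Agent.helper97.BT.GB

open MeasureTheory ProbabilityTheory Filter Topology
open scoped ENNReal NNReal

namespace Pool.Agent.helper32.EB

/-! Module GC. -/

theorem GC_lint (f F : ℝ → ℝ) (a b : ℝ) (hab : a ≤ b)
    (hF : ∀ t ∈ Set.Icc a b, HasDerivAt F (f t) t) (hc : ContinuousOn f (Set.Icc a b))
    (hn : ∀ t ∈ Set.Icc a b, 0 ≤ f t) :
    ∫⁻ t in Set.Ioc a b, ENNReal.ofReal (f t) = ENNReal.ofReal (F b - F a) := by
  have hi : IntegrableOn f (Set.Ioc a b) :=
    (hc.integrableOn_Icc).mono_set Set.Ioc_subset_Icc_self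
  have hnn : 0 ≤ᵐ[volume.restrict (Set.Ioc a b)] f := by
    filter_upwards [ae_restrict_mem measurableSet_Ioc] with t ht
    exact hn t (Set.Ioc_subset_Icc_self ht)
  rw [← ofReal_integral_eq_lintegral_ofReal hi hnn]
  congr 1
  rw [← intervalIntegral.integral_of_le hab]
  refine intervalIntegral.integral_eq_sub_of_hasDerivAt ?_ ?_
  · intro t ht
    rw [Set.uIcc_of_le hab] at ht
    exact hF t ht
  · rw [intervalIntegrable_iff_integrableOn_Ioc_of_le hab]
    exact hi

theorem GC_disp_sq (z : ℂ) : ‖disp z‖ ^ 2 ≤ 1 / 2 := by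
  have h1 := abs_sub_round z.re
  have h2 := abs_sub_round z.im
  rw [← Complex.normSq_eq_norm_sq, Complex.normSq_apply]
  simp only [disp]
  have h3 : (z.re - round z.re) * (z.re - round z.re) ≤ 1 / 4 := by
    nlinarith [abs_nonneg (z.re - round z.re), abs_mul_abs_self (z.re - round z.re)]
  have h4 : (z.im - round z.im) * (z.im - round z.im) ≤ 1 / 4 := by
    nlinarith [abs_nonneg (z.im - round z.im), abs_mul_abs_self (z.im - round z.im)]
  linarith

theorem GC_disp_le_pk (t : ℝ) (z : ℂ) : hk t (disp z) ≤ pk t z := by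
  have h := ENNReal.le_tsum (f := fun m : ℤ × ℤ => hk t (z + ⟨m.1, m.2⟩))
    (-round z.re, -round z.im)
  refine le_trans (le_of_eq ?_) h
  have : disp z = z + ⟨((-round z.re : ℤ) : ℝ), ((-round z.im : ℤ) : ℝ)⟩ := by
    apply Complex.ext <;> simp [disp, sub_eq_add_neg]
  simp only
  rw [this]

theorem green_log (T : ℝ) (hT : 1 ≤ T) : ∃ C : ℝ, 0 < C ∧ ∀ z, disp z ≠ 0 →
    green T z ≤ ENNReal.ofReal (1 / (2 * Real.pi) * Real.log (1 / ‖disp z‖) + C) ∧
    ENNReal.ofReal (1 / (2 * Real.pi) * Real.log (1 / ‖disp z‖) - C) ≤ green T z := by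
  have hT0 : 0 < T := by linarith
  have hlogT : 0 ≤ Real.log T := Real.log_nonneg hT
  have hpi : 0 < Real.pi := Real.pi_pos
  have hpi3 : 3 < Real.pi := Real.pi_gt_three
  have hspi : 1 ≤ √Real.pi := by
    rw [Real.one_le_sqrt]
    linarith
  have hsT : 0 ≤ √T := Real.sqrt_nonneg T
  refine ⟨1000 + T + 2 * √T + Real.log T, by positivity, fun z hz => ?_⟩
  set d : ℝ := ‖disp z‖ with hd
  have hd0 : 0 < d := norm_pos_iff.mpr hz
  have hd2 : d ^ 2 ≤ 1 / 2 := GC_disp_sq z
  have hd2p : 0 < d ^ 2 := by positivity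
  have hdT : d ^ 2 ≤ T := by linarith
  have hlogd : Real.log (1 / d) = - Real.log d := by
    rw [one_div, Real.log_inv]
  have hlogd2 : Real.log (d ^ 2) = 2 * Real.log d := by
    rw [Real.log_pow]
    norm_num
  constructor
  · -- upper bound
    have hsplit : green T z = (∫⁻ t in Set.Ioc 0 (d ^ 2), pk t z) +
        ∫⁻ t in Set.Ioc (d ^ 2) T, pk t z := by
      unfold green
      rw [← Set.Ioc_union_Ioc_eq_Ioc hd2p.le hdT]
      rw [lintegral_union measurableSet_Ioc]
      rw [Set.disjoint_left]
      intro x hx hx'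
      exact absurd hx.2 (not_le.mpr hx'.1)
    have h1 : ∫⁻ t in Set.Ioc 0 (d ^ 2), pk t z ≤ ENNReal.ofReal 1000 := by
      calc ∫⁻ t in Set.Ioc 0 (d ^ 2), pk t z
          ≤ ∫⁻ t in Set.Ioc 0 (d ^ 2), ENNReal.ofReal (1000 / d ^ 2) := by
            refine setLIntegral_mono measurable_const fun t ht => ?_
            refine le_trans (pk_small t ht.1 (by linarith [ht.2]) z ht.2) ?_
            refine ENNReal.ofReal_le_ofReal ?_
            rw [← hd]
            have : Real.exp (-d ^ 2 / (8 * t)) ≤ 1 := by
              rw [Real.exp_le_one_iff]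
              have : 0 ≤ d ^ 2 / (8 * t) := by
                have := ht.1
                positivity
              have e : -d ^ 2 / (8 * t) = - (d ^ 2 / (8 * t)) := by ring
              rw [e]
              linarith
            have h2 : 0 ≤ 1000 / d ^ 2 := by positivity
            nlinarith
        _ = ENNReal.ofReal 1000 := by
            rw [setLIntegral_const, Real.volume_Ioc, sub_zero,
              ← ENNReal.ofReal_mul (by positivity)]
            congr 1
            field_simp
    have h2 : ∫⁻ t in Set.Ioc (d ^ 2) T, pk t z ≤ ENNReal.ofReal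
        ((T + 2 / √Real.pi * √T + 1 / (4 * Real.pi) * Real.log T) -
          (d ^ 2 + 2 / √Real.pi * √(d ^ 2) + 1 / (4 * Real.pi) * Real.log (d ^ 2))) := by
      rw [← GC_lint (fun t => (1 + 1 / √(4 * Real.pi * t)) ^ 2)
        (fun t => t + 2 / √Real.pi * √t + 1 / (4 * Real.pi) * Real.log t) (d ^ 2) T hdT]
      · refine lintegral_mono_ae ?_
        filter_upwards [ae_restrict_mem measurableSet_Ioc] with t ht
        exact (pk_bounds t (lt_trans hd2p ht.1) z).1
      · intro t ht
        have ht0 : 0 < t := lt_of_lt_of_le hd2p ht.1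
        have hs : √(4 * Real.pi * t) = 2 * √Real.pi * √t := by
          rw [show (4 : ℝ) * Real.pi * t = (2 ^ 2 * Real.pi) * t by ring,
            Real.sqrt_mul (by positivity), Real.sqrt_mul (by positivity),
            Real.sqrt_sq (by norm_num)]
        have hst : 0 < √t := Real.sqrt_pos.mpr ht0
        have hsp : 0 < √Real.pi := by positivity
        have e : (1 + 1 / √(4 * Real.pi * t)) ^ 2 =
            1 + 2 / √Real.pi * (1 / (2 * √t)) + 1 / (4 * Real.pi) * t⁻¹ := by
          rw [hs]
          have h3 : √t ^ 2 = t := Real.sq_sqrt ht0.le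
          have h4 : √Real.pi ^ 2 = Real.pi := Real.sq_sqrt hpi.le
          have h5 : 1 / (4 * Real.pi) * t⁻¹ = (1 / (2 * √Real.pi * √t)) ^ 2 := by
            rw [div_pow, mul_pow, mul_pow, h3, h4]
            field_simp
            norm_num
          rw [h5]
          field_simp
          ring
        simp only [e]
        refine ((hasDerivAt_id t).add ?_).add ?_
        · exact (Real.hasDerivAt_sqrt ht0.ne').const_mul _
        · exact (Real.hasDerivAt_log ht0.ne').const_mul _
      · intro t ht
        have ht0 : 0 < t := lt_of_lt_of_le hd2p ht.1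
        have hs : √(4 * Real.pi * t) ≠ 0 := by positivity
        refine ContinuousAt.continuousWithinAt ?_
        fun_prop (disch := assumption)
      · intro t _
        positivity
    rw [hsplit]
    refine le_trans (add_le_add h1 h2) ?_
    have hs : √(d ^ 2) = d := Real.sqrt_sq hd0.le
    rw [hs, hlogd2]
    have hnn : 0 ≤ (T + 2 / √Real.pi * √T + 1 / (4 * Real.pi) * Real.log T) -
          (d ^ 2 + 2 / √Real.pi * d + 1 / (4 * Real.pi) * (2 * Real.log d)) := by
      have h3 : d ≤ √T := by
        rw [← hs]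
        exact Real.sqrt_le_sqrt hdT
      have h4 : 2 * Real.log d ≤ Real.log T := by
        rw [← hlogd2]
        exact Real.log_le_log hd2p hdT
      have h5 : 2 / √Real.pi * d ≤ 2 / √Real.pi * √T := by gcongr
      have h6 : 1 / (4 * Real.pi) * (2 * Real.log d) ≤ 1 / (4 * Real.pi) * Real.log T := by gcongr
      linarith
    rw [← ENNReal.ofReal_add (by norm_num) hnn]
    refine ENNReal.ofReal_le_ofReal ?_
    rw [hlogd]
    have h7 : 2 / √Real.pi * √T ≤ 2 * √T := by
      have : 2 / √Real.pi ≤ 2 := by
        rw [div_le_iff₀ (by positivity)]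
        linarith
      nlinarith
    have h8 : 1 / (4 * Real.pi) * Real.log T ≤ Real.log T := by
      have : 1 / (4 * Real.pi) ≤ 1 := by
        rw [div_le_iff₀ (by positivity)]
        linarith
      nlinarith
    have h9 : 1 / (4 * Real.pi) * (2 * Real.log d) = 1 / (2 * Real.pi) * Real.log d := by
      field_simp
      norm_num
    have h10 : 0 ≤ 2 / √Real.pi * d := by positivity
    rw [h9]
    linarith
  · -- lower bound
    have h1 : ENNReal.ofReal
        ((1 / (4 * Real.pi) * Real.log T + d ^ 2 / (16 * Real.pi) * T⁻¹) -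
          (1 / (4 * Real.pi) * Real.log (d ^ 2) + d ^ 2 / (16 * Real.pi) * (d ^ 2)⁻¹)) ≤
        green T z := by
      rw [← GC_lint (fun t => 1 / (4 * Real.pi) * t⁻¹ + d ^ 2 / (16 * Real.pi) * (-(t ^ 2)⁻¹))
        (fun t => 1 / (4 * Real.pi) * Real.log t + d ^ 2 / (16 * Real.pi) * t⁻¹) (d ^ 2) T hdT]
      · unfold green
        calc ∫⁻ t in Set.Ioc (d ^ 2) T, ENNReal.ofReal
              (1 / (4 * Real.pi) * t⁻¹ + d ^ 2 / (16 * Real.pi) * (-(t ^ 2)⁻¹))
            ≤ ∫⁻ t in Set.Ioc (d ^ 2) T, pk t z := by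
              refine lintegral_mono_ae ?_
              filter_upwards [ae_restrict_mem measurableSet_Ioc] with t ht
              refine le_trans ?_ (GC_disp_le_pk t z)
              have ht0 : 0 < t := lt_trans hd2p ht.1
              unfold hk
              refine ENNReal.ofReal_le_ofReal ?_
              rw [← hd]
              have h2 := Real.add_one_le_exp (-d ^ 2 / (4 * t))
              have h3 : 0 < 1 / (4 * Real.pi * t) := by positivity
              have h4 : 1 / (4 * Real.pi) * t⁻¹ + d ^ 2 / (16 * Real.pi) * (-(t ^ 2)⁻¹) =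
                  1 / (4 * Real.pi * t) * (-d ^ 2 / (4 * t) + 1) := by
                field_simp
                ring
              rw [h4]
              exact mul_le_mul_of_nonneg_left h2 h3.le
          _ ≤ ∫⁻ t in Set.Ioc 0 T, pk t z :=
              lintegral_mono_set (Set.Ioc_subset_Ioc_left hd2p.le)
      · intro t ht
        have ht0 : 0 < t := lt_of_lt_of_le hd2p ht.1
        refine HasDerivAt.add ?_ ?_
        · exact (Real.hasDerivAt_log ht0.ne').const_mul _
        · exact (hasDerivAt_inv ht0.ne').const_mul _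
      · intro t ht
        have ht0 : 0 < t := lt_of_lt_of_le hd2p ht.1
        have hs : t ≠ 0 := ht0.ne'
        have hs2 : t ^ 2 ≠ 0 := by positivity
        refine ContinuousAt.continuousWithinAt ?_
        fun_prop (disch := assumption)
      · intro t ht
        have ht0 : 0 < t := lt_of_lt_of_le hd2p ht.1
        have h4 : 1 / (4 * Real.pi) * t⁻¹ + d ^ 2 / (16 * Real.pi) * (-(t ^ 2)⁻¹) =
            1 / (16 * Real.pi * t ^ 2) * (4 * t - d ^ 2) := by
          field_simp
          ring
        rw [h4]
        have h5 := ht.1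
        refine mul_nonneg (by positivity) (by linarith)
    refine le_trans (ENNReal.ofReal_le_ofReal ?_) h1
    rw [hlogd, hlogd2]
    have h9 : 1 / (4 * Real.pi) * (2 * Real.log d) = 1 / (2 * Real.pi) * Real.log d := by
      field_simp
      norm_num
    have h10 : d ^ 2 / (16 * Real.pi) * (d ^ 2)⁻¹ = 1 / (16 * Real.pi) := by
      field_simp
    have h11 : 1 / (16 * Real.pi) ≤ 1 := by
      rw [div_le_iff₀ (by positivity)]
      linarith
    have h12 : 0 ≤ 1 / (4 * Real.pi) * Real.log T := by positivity
    have h13 : 0 ≤ d ^ 2 / (16 * Real.pi) * T⁻¹ := by positivity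
    rw [h9, h10]
    linarith

end Pool.Agent.helper32.EB
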