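import Pool.Agent.helper32.EB.Defs2
import Pool.Agent.helper97.BT.VB
import Pool.Agent.helper92.BT.PF
import Pool.Agent.helper6.BT.VA
import Pool.Agent.helper6.BT.VA2
import Pool.Agent.helper9.BT.VC

open MeasureTheory ProbabilityTheory Filter Topology
open scoped ENNReal NNReal

namespace Pool.Agent.helper32.EB

/-! Module VD. -/

theorem VD_upd_eq (G : Geo) (U T : Finset (Fin G.J)) : MeasurableSet {z : ℂ | upd G z U = T} := by
  classical
  have : {z : ℂ | upd G z U = T} = ⋂ j : Fin G.J, {z : ℂ | (j ∈ U ∧ G.ρ < ‖z - G.x j‖) ↔ j ∈ T} := by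
    ext z
    simp only [Set.mem_ofPred_eq, Set.mem_iInter, Finset.ext_iff, upd, Finset.mem_filter]
  rw [this]
  refine MeasurableSet.iInter fun j => ?_
  have hm : MeasurableSet {z : ℂ | G.ρ < ‖z - G.x j‖} :=
    measurableSet_lt measurable_const (by fun_prop)
  by_cases hU : j ∈ U <;> by_cases hT : j ∈ T
  · simpa [hU, hT] using hm
  · have h2 := hm.compl
    have e : {z : ℂ | (j ∈ U ∧ G.ρ < ‖z - G.x j‖) ↔ j ∈ T} = {z : ℂ | G.ρ < ‖z - G.x j‖}ᶜ := by
      ext z
      simp [hU, hT]
    rw [e]
    exact h2
  · simp [hU, hT]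
  · simp [hU, hT]

theorem VD_meas_some (G : Geo) (b : Bool) (m : ℕ) (U : Finset (Fin G.J)) :
    Measurable (β := RS G.J) (fun w : ℂ => some (b, m, upd G w U)) := by
  have h1 : @Measurable ℂ (Finset (Fin G.J)) _ ⊤ (fun w => upd G w U) := by
    let _ : MeasurableSpace (Finset (Fin G.J)) := ⊤
    refine measurable_to_countable' fun T => ?_
    exact VD_upd_eq G U T
  exact (measurable_from_top (β := RS G.J)
    (f := fun T : Finset (Fin G.J) => some (b, m, T))).comp h1

theorem VD_rstep_meas1 (G : Geo) (q : RS G.J) : Measurable (fun w : ℂ => rstep G w q) := by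
  classical
  rcases q with _ | ⟨b, m, U⟩
  · show Measurable (β := RS G.J) (fun w : ℂ => none)
    exact measurable_const
  · cases b with
    | false =>
      cases m with
      | zero =>
        show Measurable (β := RS G.J) (fun w : ℂ => if ‖w‖ ≤ G.r then none else some (false, 0, U))
        exact Measurable.ite (measurableSet_le measurable_norm measurable_const)
          measurable_const measurable_const
      | succ m =>
        show Measurable (β := RS G.J) (fun w : ℂ => if ‖w‖ ≤ G.r then some (true, m, upd G w U)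
          else some (false, m + 1, U))
        exact Measurable.ite (measurableSet_le measurable_norm measurable_const)
          (VD_meas_some G true m U) measurable_const
    | true =>
      show Measurable (β := RS G.J) (fun w : ℂ => if ‖w‖ < G.R' then some (true, m, upd G w U)
          else some (false, m, upd G w U))
      exact Measurable.ite (measurableSet_lt measurable_norm measurable_const)
          (VD_meas_some G true m U) (VD_meas_some G false m U)

theorem VD_rstep_meas (G : Geo) : Measurable (fun p : ℂ × RS G.J => rstep G p.1 p.2) := by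
  refine measurable_from_prod_countable_left fun q => ?_
  exact VD_rstep_meas1 G q

theorem VD_gstep_meas (G : Geo) {M : ℕ} (o : Fin M → ℂ) :
    Measurable (fun p : (ℂ × (Fin M → RS G.J)) × ℂ => gstep G o p.1 p.2) := by
  unfold gstep
  refine Measurable.prodMk (by fun_prop) ?_
  refine measurable_pi_lambda _ fun i => ?_
  have h1 : Measurable (fun p : (ℂ × (Fin M → RS G.J)) × ℂ =>
      ((disp (p.1.1 + p.2 - o i), p.1.2 i) : ℂ × RS G.J)) := by
    refine Measurable.prodMk ?_ ?_
    · exact disp_meas.comp (by fun_prop)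
    · exact (measurable_pi_apply i).comp (measurable_snd.comp measurable_fst)
  exact (VD_rstep_meas G).comp h1

theorem VD_phiR_meas (G : Geo) (ν : Measure ℂ) [SFinite ν] :
    Measurable (fun p : ℂ × RS G.J => phiR G ν p.1 p.2) := by
  refine measurable_from_prod_countable_left fun q => ?_
  rcases q with _ | ⟨b, m, U⟩
  · exact measurable_const
  · cases b with
    | false => exact measurable_const
    | true => exact Fv_meas G ν (Vv G ν m) U

theorem VD_Phi_meas (G : Geo) (ν : Measure ℂ) [SFinite ν] {M : ℕ} (o : Fin M → ℂ) :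
    Measurable (fun s : ℂ × (Fin M → RS G.J) => ∏ i, phiR G ν (disp (s.1 - o i)) (s.2 i)) := by
  refine Finset.measurable_prod _ fun i _ => ?_
  have h1 : Measurable (fun p : ℂ × (Fin M → RS G.J) =>
      ((disp (p.1 - o i), p.2 i) : ℂ × RS G.J)) := by
    refine Measurable.prodMk ?_ ?_
    · exact disp_meas.comp (by fun_prop)
    · exact (measurable_pi_apply i).comp measurable_snd
  exact (VD_phiR_meas G ν).comp h1

theorem VD_run (G : Geo) {M : ℕ} (o : Fin M → ℂ) (z0 : ℂ) (n : ℕ) (y : ℕ → ℂ) (N : ℕ) :
    run (gstep G o) (z0, fun _ => some (false, n, Finset.univ)) y N =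
      (walk z0 y N, fun i => rstate G (o i) n (walk z0 y) N) := by
  induction N with
  | zero => simp [run, walk, rstate]
  | succ N ih =>
    have hw : walk z0 y (N + 1) = walk z0 y N + y N := by
      simp [walk, Finset.sum_range_succ, add_assoc]
    rw [run, ih]
    simp only [gstep, rstate, hw]

theorem engine {Ω : Type*} [MeasurableSpace Ω] {P : Measure Ω} [IsProbabilityMeasure P]
    (G : Geo) (hG : G.OK) {ν : Measure ℂ} (hν : RotStep ν G.h) {Y : ℕ → Ω → ℂ}
    (hY : IID P ν Y) {M : ℕ} (o : Fin M → ℂ) (ho : Sep G o) (z0 : ℂ)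
    (hz0 : ∀ i, G.r < ‖disp (z0 - o i)‖) (n N : ℕ) :
    P {ω | ∀ i, ∃ b m, rstate G (o i) n (walk z0 (fun k => Y k ω)) N = some (b, m, ∅)} ≤
      (Vv G ν n Finset.univ) ^ M := by
  classical
  have := hν.prob
  set s0 : ℂ × (Fin M → RS G.J) := (z0, fun _ => some (false, n, Finset.univ)) with hs0
  set Φ : ℂ × (Fin M → RS G.J) → ℝ≥0∞ := fun s => ∏ i, phiR G ν (disp (s.1 - o i)) (s.2 i) with hΦ
  have hm : Measurable Φ := VD_Phi_meas G ν o
  have hg := VD_gstep_meas G o
  have hrunm : ∀ N, Measurable (fun ω => run (gstep G o) s0 (fun k => Y k ω) N) := by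
    intro N
    induction N with
    | zero => exact measurable_const
    | succ N ih =>
      have : (fun ω => run (gstep G o) s0 (fun k => Y k ω) (N + 1)) =
          (fun p : (ℂ × (Fin M → RS G.J)) × ℂ => gstep G o p.1 p.2) ∘
            (fun ω => (run (gstep G o) s0 (fun k => Y k ω) N, Y N ω)) := rfl
      rw [this]
      exact hg.comp (ih.prodMk (hY.meas N))
  have hb := iter_bound hν hY (gstep G o) hg Φ hm
    (fun s => ∀ i, ValQ G (s.1 - o i) (s.2 i))
    (fun s hs y hy => valQ_step G hG o s hs y hy) 1
    (fun s hs => by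
      rw [one_mul]
      exact phi_step G hG hν o ho s hs) s0 (fun i => hz0 i) N
  rw [one_pow, one_mul] at hb
  have h0 : Φ s0 = (Vv G ν n Finset.univ) ^ M := by
    simp [hΦ, hs0, phiR]
  rw [h0] at hb
  refine le_trans ?_ hb
  have hsub : {ω | ∀ i, ∃ b m, rstate G (o i) n (walk z0 (fun k => Y k ω)) N = some (b, m, ∅)} ⊆
      {ω | 1 ≤ Φ (run (gstep G o) s0 (fun k => Y k ω) N)} := by
    intro ω hω
    simp only [Set.mem_ofPred_eq] at hω ⊢
    rw [hs0, VD_run, hΦ]
    simp only
    refine le_of_eq (Eq.symm ?_)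
    refine Finset.prod_eq_one fun i _ => ?_
    obtain ⟨b, m, hbm⟩ := hω i
    rw [hbm]
    cases b with
    | false => exact (Fv_empty G hG hν m 0).1
    | true => exact (Fv_empty G hG hν m _).2
  refine le_trans (measure_mono hsub) ?_
  have := mul_meas_ge_le_lintegral (μ := P) (hm.comp (hrunm N)) 1
  simpa using this

end Pool.Agent.helper32.EB
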